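import Pool.Agent.U753.PE.Phase

/-!
# Global PEPS approximation: invertible states, partners and circuits

The conclusion of the open problem is a property of the phase, and it holds for all invertible
states. In more detail, let `Ψ` be the ground states of a gapped family.

(1) A circuit with `T` gates on `r × r` boxes at each position of the torus, in an arbitrary order
(so its depth may be of order `L²`) and with arbitrary, not necessarily unitary, gates multiplies
the bond dimension of a PEPS by at most `n ^ (2 T r⁴)`, `n` the local dimension.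

(2) `Ψ` satisfies the conclusion at the scale `exp (C (log L) ^ k)` of the bond dimension if and only
if for some ARBITRARY partner vectors `χ` (not necessarily a PEPS, not necessarily ground states;
the local dimension of the partner may depend on `L`) the vector `Ψ ⊗ χ` has an overlap of at least
`exp (-C (log L) ^ k)` with a circuit applied to a PEPS, the bond dimension given by (1) being at
most `exp (C (log L) ^ k)`. For example: `Ψ ⊗ χ` is obtained from a product vector by a circuit with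
`(log L) ^ k'` gates per position (invertible states); the double `Ψ ⊗ Ψ̄` is obtained by such a
circuit from a string-net state.

(3) If two gapped families with arbitrary local dimensions, stacked with partners, are related by
such a circuit of norm at most one (for instance unitary, or a product of Kraus operators of
measurements) with fidelity at least `exp (-C (log L) ^ k)`, the partner of the first being a PEPS,
and the first one satisfies the conclusion, then so does the second.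
-/

set_option autoImplicit false

open scoped BigOperators Matrix
open Finset Pool.Agent.TH235.PP Pool.Agent.Results.MP_953b23_mp.OverlapBoosting

namespace Pool.Agent.Results.MP_953b23_mp.InvertibleStates

open Pool.Agent.U753.PE (stackE IsCircuit compE)

/-- The conclusion of the open problem with the exponent `k` in the bond dimension
`exp (C (log L) ^ k)`. -/
def ConclusionAt (k : ℕ) {d : ℕ} (Ψ : ∀ L : ℕ, (Site L → Fin d) → ℂ) : Prop :=
  ∀ c : ℝ, 0 < c → ∃ C : ℝ, Approx Ψ k C fun L => (L : ℝ) ^ (-c)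

/-- For all large `L` the vector `Ψ L`, stacked with some unit vector `χ` of a second system, has an
overlap of at least `exp (-C (log L) ^ k)` with the normalisation of `K φ`, where `K` is a circuit
with `T` gates on `r × r` boxes per position and `φ` is a PEPS of bond dimension `D` (of local
dimension `n`), and `D n ^ (2 T r⁴)` is at most `exp (C (log L) ^ k)`. -/
def Prepared {d : ℕ} (Ψ : ∀ L : ℕ, (Site L → Fin d) → ℂ) (k : ℕ) (C : ℝ) : Prop :=
  ∃ L₀ : ℕ, ∀ (L : ℕ) [NeZero L], L₀ ≤ L →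
    ∃ (n a D T r : ℕ) (e : Fin n ≃ Fin d × Fin a) (χ : (Site L → Fin a) → ℂ)
      (φ : (Site L → Fin n) → ℂ) (K : TorOp n L),
      normSq χ = 1 ∧ IsPEPS D φ ∧ 1 ≤ r ∧ IsCircuit T r K ∧
      (D : ℝ) * (n : ℝ) ^ (2 * T * r ^ 4) ≤ Real.exp (C * Real.log L ^ k) ∧ K *ᵥ φ ≠ 0 ∧
      Real.exp (-(C * Real.log L ^ k)) * Real.sqrt (normSq (K *ᵥ φ)) ≤
        ‖ip (stackE e (Ψ L) χ) (K *ᵥ φ)‖

/-- For all large `L`: for some unit vectors `χ`, `χ'` of partner systems, `χ'` a PEPS of bond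
dimension `D`, and some circuit `K` of norm at most one, with `T` gates on `r × r` boxes per
position, the overlap of `Ψ ⊗ χ` and `K (Ψ' ⊗ χ')` is at least `exp (-C (log L) ^ k)`, and
`D n ^ (2 T r⁴)` is at most `exp (C (log L) ^ k)`, `n` the local dimension of the stacked systems. -/
def Reaches {d d' : ℕ} (Ψ' : ∀ L : ℕ, (Site L → Fin d') → ℂ) (Ψ : ∀ L : ℕ, (Site L → Fin d) → ℂ)
    (k : ℕ) (C : ℝ) : Prop :=
  ∃ L₀ : ℕ, ∀ (L : ℕ) [NeZero L], L₀ ≤ L →
    ∃ (n a a' D T r : ℕ) (e : Fin n ≃ Fin d × Fin a) (e' : Fin n ≃ Fin d' × Fin a')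
      (χ : (Site L → Fin a) → ℂ) (χ' : (Site L → Fin a') → ℂ) (K : TorOp n L),
      normSq χ = 1 ∧ normSq χ' = 1 ∧ IsPEPS D χ' ∧ 1 ≤ r ∧ IsCircuit T r K ∧
      (∀ x, normSq (K *ᵥ x) ≤ normSq x) ∧
      (D : ℝ) * (n : ℝ) ^ (2 * T * r ^ 4) ≤ Real.exp (C * Real.log L ^ k) ∧
      Real.exp (-(C * Real.log L ^ k)) ≤
        ‖ip (stackE e (Ψ L) χ) (K *ᵥ stackE e' (Ψ' L) χ')‖

section proof

variable {d R : ℕ} {h : BoxOp d R} {Δ : ℝ} {Ψ : ∀ L : ℕ, (Site L → Fin d) → ℂ}

theorem to_mixed {k : ℕ} {C : ℝ} (hP : Prepared Ψ k C) : MixedOverlap Ψ k (2 * |C|) := by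
  obtain ⟨L₀, hL₀⟩ := hP
  refine ⟨max 1 L₀, ?_⟩
  intro L _ hL
  obtain ⟨n, a, D, T, r, e, χ, φ, K, hχ, hφ, hr, hK, hD, hne, hov⟩ :=
    hL₀ L ((le_max_right _ _).trans hL)
  have hL1 : (1 : ℝ) ≤ L := by exact_mod_cast (le_max_left _ _).trans hL
  have hX : 0 ≤ Real.log L ^ k := pow_nonneg (Real.log_nonneg hL1) k
  have hn : 0 < n := by
    rcases Nat.eq_zero_or_pos n with h0 | h0
    · exfalso
      subst h0
      apply hne
      funext s
      exact (s 0).elim0
    · exact h0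
  have hP := Pool.Agent.U753.PE.circ_peps hr hn hK hφ
  have hpos : 0 < normSq (K *ᵥ φ) := by
    rcases lt_or_eq_of_le (normSq_nonneg (K *ᵥ φ)) with h1 | h1
    · exact h1
    · exfalso
      apply hne
      funext s
      have h5 := (Finset.sum_eq_zero_iff_of_nonneg (fun _ _ => by positivity)).1 h1.symm s
        (mem_univ _)
      have : ‖(K *ᵥ φ) s‖ = 0 := by
        by_contra hne
        have : 0 < ‖(K *ᵥ φ) s‖ ^ 2 := by positivity
        linarith
      exact norm_eq_zero.1 this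
  refine ⟨a, D * n ^ (2 * T * r ^ 4), fun t => compE e (K *ᵥ φ) t, ?_,
    Pool.Agent.U753.PE.purified e hP, ?_, ?_⟩
  · push_cast
    refine hD.trans (Real.exp_le_exp.2 ?_)
    have := mul_le_mul_of_nonneg_right (le_abs_self C) hX
    nlinarith [abs_nonneg C]
  · rw [Pool.Agent.U753.PE.normSq_compE]
    exact hpos
  · rw [Pool.Agent.U753.PE.normSq_compE]
    refine le_trans ?_ (Pool.Agent.U753.PE.overlap_le e (Ψ L) χ hχ (K *ᵥ φ))
    have h1 : (Real.exp (-(C * Real.log L ^ k)) * Real.sqrt (normSq (K *ᵥ φ))) ^ 2 ≤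
        ‖ip (stackE e (Ψ L) χ) (K *ᵥ φ)‖ ^ 2 :=
      pow_le_pow_left₀ (by positivity) hov 2
    rw [mul_pow, Real.sq_sqrt hpos.le, ← Real.exp_nat_mul] at h1
    refine le_trans (mul_le_mul_of_nonneg_right (Real.exp_le_exp.2 ?_) hpos.le) h1
    push_cast
    have := mul_le_mul_of_nonneg_right (le_abs_self C) hX
    nlinarith

theorem of_approx {k : ℕ} {C : ℝ}
    (hn : ∃ L₀ : ℕ, ∀ (L : ℕ) [NeZero L], L₀ ≤ L → normSq (Ψ L) = 1)
    (hA : Approx Ψ k C fun L => (L : ℝ) ^ (-(1 : ℝ))) : Prepared Ψ k (|C| + 1) := by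
  obtain ⟨L₁, hL₁⟩ := hn
  obtain ⟨L₀, hL₀⟩ := hA
  refine ⟨max 4 (max L₀ L₁), ?_⟩
  intro L _ hL
  have hL4 : 4 ≤ L := (le_max_left _ _).trans hL
  obtain ⟨D, ψ, hD, hψ, hd⟩ := hL₀ L (((le_max_left _ _).trans (le_max_right _ _)).trans hL)
  have hn1 := hL₁ L (((le_max_right _ _).trans (le_max_right _ _)).trans hL)
  have hL4' : (4 : ℝ) ≤ L := by exact_mod_cast hL4
  have hlog : 1 ≤ Real.log L := log_ge_one (by omega)
  have hX : 1 ≤ Real.log L ^ k := one_le_pow₀ hlog
  rw [sqrt_normSq] at hd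
  have hd' : nr (ψ - Ψ L) ≤ 1 / 4 := by
    refine hd.trans ?_
    beta_reduce
    rw [Real.rpow_neg_one, ← one_div]
    exact one_div_le_one_div_of_le (by norm_num) hL4'
  obtain ⟨h1, h2, h3⟩ := near (Ψ L) ψ hn1 hd'
  have hst : stackE (Equiv.prodUnique (Fin d) (Fin 1)).symm (Ψ L) (fun _ => 1) = Ψ L := by
    funext s
    simp [stackE]
  have hcirc : IsCircuit 0 1 (1 : TorOp d L) := by
    refine ⟨0, Equiv.equivOfIsEmpty _ _, fun _ j => j.elim0, ?_⟩
    simp
  have hψ0 : ψ ≠ 0 := by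
    rintro rfl
    have : nr (0 : (Site L → Fin d) → ℂ) = 0 := by
      unfold nr
      simp
    linarith
  refine ⟨d, 1, D, 0, 1, (Equiv.prodUnique (Fin d) (Fin 1)).symm, fun _ => 1, ψ, 1, ?_, hψ, le_rfl,
    hcirc, ?_, ?_, ?_⟩
  · unfold normSq
    simp
  · simp only [mul_zero, zero_mul, pow_zero, mul_one]
    refine hD.trans (Real.exp_le_exp.2 ?_)
    have := mul_le_mul_of_nonneg_right (le_abs_self C) (zero_le_one.trans hX)
    linarith
  · rw [Matrix.one_mulVec]
    exact hψ0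
  · rw [Matrix.one_mulVec, sqrt_normSq, hst]
    have h4 : Real.exp (-((|C| + 1) * Real.log L ^ k)) ≤ 1 / 2 := by
      have h5 : Real.exp (-((|C| + 1) * Real.log L ^ k)) ≤ Real.exp (-1) := by
        apply Real.exp_le_exp.2
        nlinarith [abs_nonneg C, mul_nonneg (abs_nonneg C) (zero_le_one.trans hX)]
      have h6 : Real.exp (-1) ≤ 1 / 2 := by
        rw [Real.exp_neg, ← one_div]
        apply one_div_le_one_div_of_le (by norm_num)
        have := Real.add_one_le_exp (1 : ℝ)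
        linarith
      linarith
    have h0 : 0 ≤ nr ψ := nr_nonneg _
    nlinarith

end proof

theorem result :
    -- (1) circuits and bond dimension
    (∀ (n L : ℕ) [NeZero L] (T r D : ℕ) (K : TorOp n L) (φ : (Site L → Fin n) → ℂ), 0 < n → 1 ≤ r →
      IsCircuit T r K → IsPEPS D φ → IsPEPS (D * n ^ (2 * T * r ^ 4)) (K *ᵥ φ)) ∧
    -- (2) the criterion
    (∀ (d R : ℕ) (h : BoxOp d R) (Δ : ℝ) (Ψ : ∀ L : ℕ, (Site L → Fin d) → ℂ),
      GappedFamily h Δ Ψ → ∀ k : ℕ, 1 ≤ k → (ConclusionAt k Ψ ↔ ∃ C : ℝ, Prepared Ψ k C)) ∧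
    -- (3) the conclusion passes from one family to another
    ∀ (d d' R R' : ℕ) (h : BoxOp d R) (h' : BoxOp d' R') (Δ Δ' : ℝ)
      (Ψ : ∀ L : ℕ, (Site L → Fin d) → ℂ) (Ψ' : ∀ L : ℕ, (Site L → Fin d') → ℂ),
      GappedFamily h Δ Ψ → GappedFamily h' Δ' Ψ' → ∀ k : ℕ, 1 ≤ k → ∀ C : ℝ, Reaches Ψ' Ψ k C →
      ConclusionAt k Ψ' → ConclusionAt k Ψ := by
  have two : ∀ (d R : ℕ) (h : BoxOp d R) (Δ : ℝ) (Ψ : ∀ L : ℕ, (Site L → Fin d) → ℂ),
      GappedFamily h Δ Ψ → ∀ k : ℕ, 1 ≤ k → (ConclusionAt k Ψ ↔ ∃ C : ℝ, Prepared Ψ k C) := by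
    intro d R h Δ Ψ hF k hk
    have hE := Pool.Agent.Y159.PepsScale.equivK hF k hk
    constructor
    · intro hC
      obtain ⟨C, hA⟩ := hC 1 one_pos
      obtain ⟨L₀, hL₀⟩ := hF.ground
      exact ⟨|C| + 1, of_approx ⟨L₀, fun L _ hL => (hL₀ L hL).1⟩ hA⟩
    · rintro ⟨C, hP⟩
      have h1 : (∃ C : ℝ, MixedOverlap Ψ k C) →
          ∀ c : ℝ, 0 < c → ∃ C : ℝ, Approx Ψ k C fun L => (L : ℝ) ^ (-c) := (hE.out 4 0).1
      exact h1 ⟨2 * |C|, to_mixed hP⟩
  refine ⟨?_, two, ?_⟩
  · intro n L _ T r D K φ hn hr hK hφ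
    exact Pool.Agent.U753.PE.circ_peps hr hn hK hφ
  · intro d d' R R' h h' Δ Δ' Ψ Ψ' hF hF' k hk C0 hR hC'
    rw [two d R h Δ Ψ hF k hk]
    have hE' := Pool.Agent.Y159.PepsScale.equivK hF' k hk
    have hE2 : (∀ c : ℝ, 0 < c → ∃ C : ℝ, Approx Ψ' k C fun L => (L : ℝ) ^ (-c)) →
        ∀ a : ℝ, 0 < a → ∃ C : ℝ, Approx Ψ' k C fun L => Real.exp (-(a * Real.log L ^ k)) :=
      (hE'.out 0 2).1
    obtain ⟨C1, L₁, hL₁⟩ := hE2 hC' (|C0| + 1) (by positivity)
    obtain ⟨L₀, hL₀⟩ := hR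
    obtain ⟨L₂, hL₂⟩ := hF.ground
    obtain ⟨L₃, hL₃⟩ := hF'.ground
    refine ⟨|C0| + |C1| + 2, max 3 (max (max L₀ L₁) (max L₂ L₃)), ?_⟩
    intro L _ hL
    have hL3 : 3 ≤ L := (le_max_left _ _).trans hL
    have hL' : max (max L₀ L₁) (max L₂ L₃) ≤ L := (le_max_right _ _).trans hL
    obtain ⟨n, a, a', D, T, r, e, e', χ, χ', K, hχ, hχ', hPχ, hr, hK, hcon, hD, hov⟩ :=
      hL₀ L (((le_max_left _ _).trans (le_max_left _ _)).trans hL')
    obtain ⟨D1, φ', hD1, hφ', hd⟩ :=
      hL₁ L (((le_max_right _ _).trans (le_max_left _ _)).trans hL')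
    have hn := (hL₂ L (((le_max_left _ _).trans (le_max_right _ _)).trans hL')).1
    have hn' := (hL₃ L (((le_max_right _ _).trans (le_max_right _ _)).trans hL')).1
    have hX : 1 ≤ Real.log L ^ k := one_le_pow₀ (log_ge_one hL3)
    rw [sqrt_normSq] at hd
    beta_reduce at hd
    generalize Real.log L ^ k = X at hX hD hov hD1 hd ⊢
    set S := stackE e (Ψ L) χ with hS
    set v := stackE e' φ' χ' with hv
    set v0 := stackE e' (Ψ' L) χ' with hv0
    have hc0 : 0 ≤ |C0| := abs_nonneg _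
    have hc1 : 0 ≤ |C1| := abs_nonneg _
    have hm0 : C0 * X ≤ |C0| * X := mul_le_mul_of_nonneg_right (le_abs_self _) (by linarith)
    have hm1 : C1 * X ≤ |C1| * X := mul_le_mul_of_nonneg_right (le_abs_self _) (by linarith)
    set E := Real.exp (-(|C0| * X)) with hEdef
    have hEpos : 0 < E := Real.exp_pos _
    have hE1 : E ≤ 1 := Real.exp_le_one_iff.2 (by
      have : 0 ≤ |C0| * X := mul_nonneg hc0 (by linarith)
      linarith)
    have hexp1 : Real.exp (-X) ≤ 1 / 2 := by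
      have h6 : Real.exp (-X) ≤ Real.exp (-1) := Real.exp_le_exp.2 (by linarith)
      have h7 : Real.exp (-1) ≤ 1 / 2 := by
        rw [Real.exp_neg, ← one_div]
        apply one_div_le_one_div_of_le (by norm_num)
        have := Real.add_one_le_exp (1 : ℝ)
        linarith
      linarith
    have hε : nr (φ' - Ψ' L) ≤ 1 / 2 * E := by
      refine hd.trans ?_
      have : -((|C0| + 1) * X) = -X + -(|C0| * X) := by ring
      rw [this, Real.exp_add]
      exact mul_le_mul_of_nonneg_right hexp1 hEpos.le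
    have hnχ' : nr χ' = 1 := nr_one _ hχ'
    have hdv : nr (v - v0) ≤ 1 / 2 * E := by
      rw [hv, hv0, Pool.Agent.U753.PE.stackE_sub_left, Pool.Agent.U753.PE.nr_stackE, hnχ', mul_one]
      exact hε
    have hconr : ∀ x, nr (K *ᵥ x) ≤ nr x := by
      intro x
      have := hcon x
      rw [← nr_sq, ← nr_sq] at this
      exact (pow_le_pow_iff_left₀ (nr_nonneg _) (nr_nonneg _) two_ne_zero).1 this
    have hnS : nr S = 1 := by
      rw [hS, Pool.Agent.U753.PE.nr_stackE, nr_one _ hn, nr_one _ hχ, one_mul]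
    have hnv0 : nr v0 = 1 := by
      rw [hv0, Pool.Agent.U753.PE.nr_stackE, nr_one _ hn', hnχ', one_mul]
    have hsplit : K *ᵥ v = K *ᵥ v0 + K *ᵥ (v - v0) := by
      rw [← Matrix.mulVec_add]
      congr 1
      abel
    have hip : ip S (K *ᵥ v) = ip S (K *ᵥ v0) + ip S (K *ᵥ (v - v0)) := by
      rw [hsplit, ip_eq, ip_eq, ip_eq, WithLp.toLp_add, inner_add_right]
    have hip2 : ‖ip S (K *ᵥ (v - v0))‖ ≤ 1 / 2 * E := by
      rw [ip_eq]
      refine (norm_inner_le_norm _ _).trans ?_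
      have k1 : ‖(WithLp.toLp 2 S : EuclideanSpace ℂ (Site L → Fin n))‖ = 1 := hnS
      rw [k1, one_mul]
      exact (hconr _).trans hdv
    have hip3 : E ≤ ‖ip S (K *ᵥ v0)‖ := by
      refine le_trans (Real.exp_le_exp.2 ?_) hov
      linarith
    have hov' : 1 / 2 * E ≤ ‖ip S (K *ᵥ v)‖ := by
      have h1 : ‖ip S (K *ᵥ v0)‖ ≤ ‖ip S (K *ᵥ v)‖ + ‖ip S (K *ᵥ (v - v0))‖ := by
        have : ip S (K *ᵥ v0) = ip S (K *ᵥ v) - ip S (K *ᵥ (v - v0)) := by rw [hip]; ring
        rw [this]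
        exact norm_sub_le _ _
      linarith
    have hnKv : nr (K *ᵥ v) ≤ 2 := by
      refine (hconr v).trans ?_
      have : v = v0 + (v - v0) := by abel
      rw [this]
      refine (nr_add _ _).trans ?_
      rw [hnv0]
      linarith
    have hv2 : IsPEPS (D1 * D) v := Pool.Agent.U753.PE.stackE_peps e' hφ' hPχ
    refine ⟨n, a, D1 * D, T, r, e, χ, v, K, hχ, hv2, hr, hK, ?_, ?_, ?_⟩
    · push_cast
      rw [mul_assoc]
      refine (mul_le_mul hD1 hD (by positivity) (Real.exp_pos _).le).trans ?_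
      rw [← Real.exp_add]
      apply Real.exp_le_exp.2
      nlinarith
    · intro h0
      rw [h0] at hov'
      have : ip S (0 : (Site L → Fin n) → ℂ) = 0 := by
        unfold ip
        simp
      rw [this, norm_zero] at hov'
      linarith
    · rw [sqrt_normSq]
      refine le_trans ?_ hov'
      have h8 : Real.exp (-((|C0| + |C1| + 2) * X)) ≤ 1 / 2 * (1 / 2) * E := by
        have e1 : -((|C0| + |C1| + 2) * X) = -X + -X + -(|C0| * X) + -(|C1| * X) := by ring
        rw [e1, Real.exp_add, Real.exp_add, Real.exp_add]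
        have h9 : Real.exp (-(|C1| * X)) ≤ 1 := Real.exp_le_one_iff.2 (by
          have : 0 ≤ |C1| * X := mul_nonneg hc1 (by linarith)
          linarith)
        have h10 : Real.exp (-X) * Real.exp (-X) ≤ 1 / 2 * (1 / 2) :=
          mul_le_mul hexp1 hexp1 (Real.exp_pos _).le (by norm_num)
        calc Real.exp (-X) * Real.exp (-X) * Real.exp (-(|C0| * X)) * Real.exp (-(|C1| * X))
            ≤ 1 / 2 * (1 / 2) * E * 1 := by
              refine mul_le_mul (mul_le_mul_of_nonneg_right h10 hEpos.le) h9 (Real.exp_pos _).le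
                (by positivity)
          _ = 1 / 2 * (1 / 2) * E := mul_one _
      have h11 : 0 ≤ nr (K *ᵥ v) := nr_nonneg _
      calc Real.exp (-((|C0| + |C1| + 2) * X)) * nr (K *ᵥ v)
          ≤ (1 / 2 * (1 / 2) * E) * 2 := mul_le_mul h8 hnKv h11 (by positivity)
        _ = 1 / 2 * E := by ring

end Pool.Agent.Results.MP_953b23_mp.InvertibleStates
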