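import Pool.Agent.U753.MG.Fam
import Pool.Agent.U67.MG.SU
import Pool.Agent.U580.MG.AR
import Pool.Agent.Y159.PepsScale

/-!
# Global PEPS approximation from the approximate quantum Markov property

Fix an order of the sites of the `L × L` torus (an injective function `σ` to the natural numbers). For
a unit vector `Ψ` and a site `v` let `P` be the set of the sites before `v` at distance at most `b`
from `v` in both directions, `Q` the set of the other sites before `v`, and `cmiO σ Ψ b v` the
conditional mutual information `I(v : Q | P)` in the state `Ψ`. Let `η` be the sum over all sites `v`.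

(1) `η` is the sum of the conditional entropies `S(P ∪ {v}) - S(P)`, so it depends only on the reduced
states of the boxes of side `2 b + 1`; it is nonnegative; and some unit PEPS of bond dimension
`exp (C (2 b + 1) ^ 24 (b ^ 2 + η + log L + log (1 / ε)))`, `C` depending only on the local dimension,
has squared overlap at least `(1 - ε) exp (-η)` with `Ψ`.

(2) If `η ≤ L ^ p exp (-c b ^ (1 / j))` for all `b` and large `L`, the orders depending on `b` and `L`,
then `Ψ` is within `exp (-a (log L) ^ m)` of a PEPS of bond dimension `exp (C (log L) ^ (26 j m))`.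
There is no Hamiltonian here.

(3) For the ground states of a gapped family it is enough that `η` is of order `(log L) ^ i` for some
`b` of order `(log L) ^ j`. Then the conclusion of the open problem holds, with bond dimension
`exp (C (log L) ^ k)`, `k = 24 j + max (2 j) i`. So `η` may grow.

(4) The hypothesis of (3) holds if the entropies of the regions which occur are given by an area law
with local boundary terms: sums of terms at the points `x` of the region which depend only on the
part of the region within `b / 2` of `x`, up to errors of order `(log L) ^ i / L ^ 2`.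

Proof of (1): a Gibbs state `exp (-H)` of free energy at most `0`, `H` a sum of logarithms of
regularised reduced states of the boxes, in which `Ψ` has energy at most `η` (chain of conditional
states along the order, Golden–Thompson and Lieb's inequality), and a column of a tensor network
approximation of `exp (-H / 2)`, in Frobenius norm.

Parts of the proof are by helper194, helper67, helper458, helper329, helper580 and, as parts of an
earlier project, by helper460, helper913, helper358, helper337, helper603, helper261.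
-/

set_option autoImplicit false

open scoped BigOperators Matrix
open Pool.Agent.TH235.PP Pool.Agent.Results.MP_953b23_mp.OverlapBoosting Pool.Agent.U753.MG

namespace Pool.Agent.Results.MP_953b23_mp.MarkovProperty

/-- The conclusion of the open problem with the exponent `k` in the bond dimension
`exp (C (log L) ^ k)`. -/
def ConclusionAt (k : ℕ) {d : ℕ} (Ψ : ∀ L : ℕ, (Site L → Fin d) → ℂ) : Prop :=
  ∀ c : ℝ, 0 < c → ∃ C : ℝ, Approx Ψ k C fun L => (L : ℝ) ^ (-c)

theorem result :
    -- (1) one torus, one vector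
    (∀ d : ℕ, 2 ≤ d → ∃ C : ℝ, 0 < C ∧
      ∀ (L : ℕ) [NeZero L] (b : ℕ), 2 ≤ L → 2 * b + 1 ≤ L →
      ∀ σ : Site L → ℕ, Function.Injective σ → ∀ Ψ : (Site L → Fin d) → ℂ, normSq Ψ = 1 →
      ∑ v, cmiO σ Ψ b v =
        ∑ v, (ent Ψ (insert v (prev σ v ∩ near b v)) - ent Ψ (prev σ v ∩ near b v)) ∧
      0 ≤ ∑ v, cmiO σ Ψ b v ∧
      ∀ ε : ℝ, 0 < ε → ε ≤ 1 → ∃ (D : ℕ) (φ : (Site L → Fin d) → ℂ),
        (D : ℝ) ≤ Real.exp (C * (2 * (b : ℝ) + 1) ^ 24 *
          ((b : ℝ) ^ 2 + ∑ v, cmiO σ Ψ b v + Real.log L + Real.log (1 / ε))) ∧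
        IsPEPS D φ ∧ normSq φ = 1 ∧
        (1 - ε) * Real.exp (-∑ v, cmiO σ Ψ b v) ≤ ‖ip Ψ φ‖ ^ 2) ∧
    -- (2) families of vectors with decay of the conditional mutual information
    (∀ d : ℕ, 2 ≤ d → ∀ Ψ : ∀ L : ℕ, (Site L → Fin d) → ℂ,
      (∃ L₀ : ℕ, ∀ (L : ℕ) [NeZero L], L₀ ≤ L → normSq (Ψ L) = 1) →
      ∀ j : ℕ, 1 ≤ j → MarkovDecay Ψ j → ∀ m : ℕ, 1 ≤ m → ∀ a : ℝ, 0 < a →
      ∃ C : ℝ, Approx Ψ (26 * j * m) C fun L => Real.exp (-(a * Real.log L ^ m))) ∧
    -- (3) gapped families
    (∀ d : ℕ, 2 ≤ d → ∀ (R : ℕ) (h : BoxOp d R) (Δ : ℝ) (Ψ : ∀ L : ℕ, (Site L → Fin d) → ℂ),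
      GappedFamily h Δ Ψ → ∀ (j i : ℕ) (B : ℝ), 1 ≤ i → MarkovTotal Ψ j i B →
      ConclusionAt (24 * j + max (2 * j) i) Ψ) ∧
    -- (4) area laws with local boundary terms
    ∀ (d : ℕ) (Ψ : ∀ L : ℕ, (Site L → Fin d) → ℂ) (j i : ℕ) (B : ℝ), AreaLaw Ψ j i B →
      MarkovTotal Ψ j i (4 * |B|) := by
  refine ⟨?_, ?_, ?_, ?_⟩
  · intro d hd
    obtain ⟨C, hC, h⟩ := general Pool.Agent.U67.MG.t_sup d hd
    refine ⟨C, hC, ?_⟩
    intro L _ b hL hb σ hσ Ψ hΨ
    exact ⟨sum_cmiO d L b σ hσ Ψ hΨ,
      cmi_nonneg Pool.Agent.U67.MG.t_sup d L hd b hb σ hσ Ψ hΨ, h L b hL hb σ hσ Ψ hΨ⟩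
  · intro d hd Ψ hn j hj hM m hm a ha
    exact fam Pool.Agent.U67.MG.t_sup hd Ψ hn j hj hM m hm a ha
  · intro d hd R h Δ Ψ hF j i B hi hM
    obtain ⟨L₀, hL₀⟩ := hF.ground
    have h1 := gapped Pool.Agent.U67.MG.t_sup hd Ψ ⟨L₀, fun L _ hL => (hL₀ L hL).1⟩ j i hi B hM
    have hE := Pool.Agent.Y159.PepsScale.equivK hF (24 * j + max (2 * j) i)
      (hi.trans ((le_max_right _ _).trans (Nat.le_add_left _ _)))
    have h2 : (∃ C : ℝ, PureOverlap Ψ (24 * j + max (2 * j) i) C) →
        ∀ c : ℝ, 0 < c → ∃ C : ℝ, Approx Ψ (24 * j + max (2 * j) i) C fun L => (L : ℝ) ^ (-c) :=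
      (hE.out 3 0).1
    exact h2 h1
  · intro d Ψ j i B hA
    exact area Pool.Agent.U580.MG.t_area Ψ j i B hA

end Pool.Agent.Results.MP_953b23_mp.MarkovProperty
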