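import Pool.Agent.U753.PE.Fam

/-!
# Global PEPS approximation: real interactions suffice

Let `Ψ ⊗ χ` be the tensor product of a vector `Ψ` of a spin system on the `L × L` torus and an
arbitrary unit vector `χ` of a second system stacked on the first one. If `Ψ ⊗ χ` is within `δ` of a
PEPS of bond dimension `D` of the stacked system, then `Ψ` is within `δ` of a PEPS of bond dimension
`D`: approximability is inherited by tensor factors, without loss and without any hypothesis on the
vectors.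

Apply this to the double `Ψ ⊗ Ψ̄`. For a gapped family with interaction `h` and ground states `Ψ` the
interaction `h ⊗ 1 + 1 ⊗ h̄` is again gapped, with the same gap and the unique ground states
`Ψ ⊗ Ψ̄`, and after the rotation of each site by the unitary `((1 + i) 1 + (1 - i) swap) / 2` (a
square root of the exchange of the two layers) it has REAL matrix elements. So

* a gapped family satisfies the conclusion of the open problem (at any given scale
  `exp (C (log L) ^ k)` of the bond dimension) if and only if its real double does;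
* the open problem for all gapped families is equivalent to the open problem for the gapped
  families with real interactions (and real ground states): complex phases, for instance broken
  time-reversal symmetry or chirality, are no obstruction of their own.
-/

set_option autoImplicit false

open scoped BigOperators Matrix
open Finset Pool.Agent.TH235.PP Pool.Agent.Results.MP_953b23_mp.OverlapBoosting

namespace Pool.Agent.Results.MP_953b23_mp.RealInteractions

/-- The conclusion of the open problem for the family `Ψ`. -/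
def Conclusion {d : ℕ} (Ψ : ∀ L : ℕ, (Site L → Fin d) → ℂ) : Prop :=
  ∀ c : ℝ, 0 < c → ∃ (k : ℕ) (C : ℝ), Approx Ψ k C fun L => (L : ℝ) ^ (-c)

/-- The conclusion of the open problem with the exponent `k` in the bond dimension
`exp (C (log L) ^ k)`. -/
def ConclusionAt (k : ℕ) {d : ℕ} (Ψ : ∀ L : ℕ, (Site L → Fin d) → ℂ) : Prop :=
  ∀ c : ℝ, 0 < c → ∃ C : ℝ, Approx Ψ k C fun L => (L : ℝ) ^ (-c)

/-- The interaction has real matrix elements. -/
def RealInteraction {d R : ℕ} (h : BoxOp d R) : Prop := ∀ p q, (h p q).im = 0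

open Pool.Agent.U753.PE (stack dbl dblFam)

theorem result :
    -- (1) approximability is inherited by tensor factors
    (∀ (d a L : ℕ) [NeZero L] (D : ℕ) (δ : ℝ) (Ψ : (Site L → Fin d) → ℂ)
      (χ : (Site L → Fin a) → ℂ) (φ : (Site L → Fin (d * a)) → ℂ), normSq χ = 1 → IsPEPS D φ →
      Real.sqrt (normSq (φ - stack Ψ χ)) ≤ δ →
      ∃ ψ : (Site L → Fin d) → ℂ, IsPEPS D ψ ∧ Real.sqrt (normSq (ψ - Ψ)) ≤ δ) ∧
    -- (2) the double of a gapped family is a gapped family with real interaction and the same gap,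
    -- and it satisfies the conclusion if and only if the family does
    (∀ (d R : ℕ) (h : BoxOp d R) (Δ : ℝ) (Ψ : ∀ L : ℕ, (Site L → Fin d) → ℂ),
      GappedFamily h Δ Ψ → RealInteraction (dbl h) ∧ GappedFamily (dbl h) Δ (dblFam Ψ) ∧
        (∀ k, ConclusionAt k Ψ ↔ ConclusionAt k (dblFam Ψ)) ∧
        (Conclusion Ψ ↔ Conclusion (dblFam Ψ))) ∧
    -- (3) the open problem is equivalent to the open problem for real interactions
    ((∀ (d R : ℕ) (h : BoxOp d R) (Δ : ℝ) (Ψ : ∀ L : ℕ, (Site L → Fin d) → ℂ),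
        GappedFamily h Δ Ψ → Conclusion Ψ) ↔
      ∀ (d R : ℕ) (h : BoxOp d R) (Δ : ℝ) (Ψ : ∀ L : ℕ, (Site L → Fin d) → ℂ),
        RealInteraction h → GappedFamily h Δ Ψ → Conclusion Ψ) ∧
    ∀ k : ℕ, (∀ (d R : ℕ) (h : BoxOp d R) (Δ : ℝ) (Ψ : ∀ L : ℕ, (Site L → Fin d) → ℂ),
        GappedFamily h Δ Ψ → ConclusionAt k Ψ) ↔
      ∀ (d R : ℕ) (h : BoxOp d R) (Δ : ℝ) (Ψ : ∀ L : ℕ, (Site L → Fin d) → ℂ),
        RealInteraction h → GappedFamily h Δ Ψ → ConclusionAt k Ψ := by
  have hn : ∀ {d R : ℕ} {h : BoxOp d R} {Δ : ℝ} {Ψ : ∀ L : ℕ, (Site L → Fin d) → ℂ},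
      GappedFamily h Δ Ψ → ∃ L₀ : ℕ, ∀ (L : ℕ) [NeZero L], L₀ ≤ L → normSq (Ψ L) = 1 := by
    intro d R h Δ Ψ hF
    obtain ⟨L₀, hL₀⟩ := hF.ground
    exact ⟨L₀, fun L _ hL => (hL₀ L hL).1⟩
  have two : ∀ (d R : ℕ) (h : BoxOp d R) (Δ : ℝ) (Ψ : ∀ L : ℕ, (Site L → Fin d) → ℂ),
      GappedFamily h Δ Ψ → RealInteraction (dbl h) ∧ GappedFamily (dbl h) Δ (dblFam Ψ) ∧
        (∀ k, ConclusionAt k Ψ ↔ ConclusionAt k (dblFam Ψ)) ∧
        (Conclusion Ψ ↔ Conclusion (dblFam Ψ)) := by
    intro d R h Δ Ψ hF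
    refine ⟨Pool.Agent.U753.PE.dbl_real h, Pool.Agent.U753.PE.dbl_family hF, ?_, ?_⟩
    · intro k
      constructor
      · intro hC c hc
        obtain ⟨C, hA⟩ := hC (c + 2) (by linarith)
        exact ⟨2 * C, Pool.Agent.U753.PE.up (hn hF) hc hA⟩
      · intro hC c hc
        obtain ⟨C, hA⟩ := hC c hc
        exact ⟨C, Pool.Agent.U753.PE.down (hn hF) hA⟩
    · constructor
      · intro hC c hc
        obtain ⟨k, C, hA⟩ := hC (c + 2) (by linarith)
        exact ⟨k, 2 * C, Pool.Agent.U753.PE.up (hn hF) hc hA⟩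
      · intro hC c hc
        obtain ⟨k, C, hA⟩ := hC c hc
        exact ⟨k, C, Pool.Agent.U753.PE.down (hn hF) hA⟩
  refine ⟨?_, two, ?_, ?_⟩
  · intro d a L _ D δ Ψ χ φ hχ hφ hd
    rw [sqrt_normSq] at hd
    obtain ⟨ψ, h1, h2⟩ := Pool.Agent.U753.PE.inherit ((nr_nonneg _).trans hd) Ψ χ hχ φ hφ hd
    exact ⟨ψ, h1, by rw [sqrt_normSq]; exact h2⟩
  · constructor
    · intro H d R h Δ Ψ _ hF
      exact H d R h Δ Ψ hF
    · intro H d R h Δ Ψ hF
      obtain ⟨h1, h2, _, h4⟩ := two d R h Δ Ψ hF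
      exact h4.2 (H _ _ _ _ _ h1 h2)
  · intro k
    constructor
    · intro H d R h Δ Ψ _ hF
      exact H d R h Δ Ψ hF
    · intro H d R h Δ Ψ hF
      obtain ⟨h1, h2, h3, _⟩ := two d R h Δ Ψ hF
      exact (h3 k).2 (H _ _ _ _ _ h1 h2)

end Pool.Agent.Results.MP_953b23_mp.RealInteractions
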