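import Pool.Agent.U753.MX.Fam
import Pool.Agent.U580.MX.GV
import Pool.Agent.U333.MX.GE
import Pool.Agent.U962.MX.VA
import Pool.Agent.U894.MX.MI
import Pool.Agent.U397.MX.BD
import Pool.Agent.U44.MX.PF
import Pool.Agent.U461.MX.GG
import Pool.Agent.Y159.PepsScale

/-!
# Global PEPS approximation and robust determination by local marginals

For a unit vector `Ψ` on the `L × L` torus and a state (density matrix) `ρ` let `locDist r ρ Ψ u` be
the trace norm of the difference of the reduced states of `ρ` and `Ψ` on the box of side `r` with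
corner `u`.

(1) Duality. The inequality `S(ρ) ≤ η + J ∑ u, ‖ρ_u - Ψ_u‖₁` holds for ALL states `ρ` if and only if
the relative entropy of `Ψ` with respect to the Gibbs state of some Hamiltonian `K`, a sum of terms
of norm at most `J` on the boxes of side `r`, is at most `η`. So it says that `Ψ` is determined by its
marginals on the boxes, robustly and up to entropy `η`, and that `Ψ` is close to a thermal state of
some local Hamiltonian, which need not be related to a parent Hamiltonian.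

(2) In this case some unit PEPS of bond dimension `exp (C r ^ 24 (J + η + log L + log (1 / ε)))` has
squared overlap at least `(1 - ε) exp (-η)` with `Ψ`.

(3) The ground states of a gapped family satisfy the conclusion of the open problem if `r`, `η` and
`J` are polylogarithmic in `L`.

(4) The hypothesis of (3) holds if the sum of the conditional mutual informations along some order of
the sites is polylogarithmic (`MarkovProperty`), and if the partition function
`Tr exp (-β (H_L - E₀))` is quasi-polynomial at some polylogarithmic `β` (`ThermalCriterion`).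

(5) For every gapped family the inequality holds with `η = 1` and `J` of order `L ^ 2`, on the boxes on
which the interaction acts. So the open problem has a positive answer for every gapped family for
which `L ^ 2` can be replaced by a power of `log L`, on boxes with side a power of `log L`.

Parts of the proof are by helper580, helper333, helper962, helper894, helper397, helper44 and
helper461.
-/

set_option autoImplicit false

open scoped BigOperators Matrix ComplexOrder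
open Pool.Agent.TH235.PP Pool.Agent.Results.MP_953b23_mp.OverlapBoosting
open Pool.Agent.Results.MP_953b23_mp.ThermalCriterion (SmallPartition)
open Pool.Agent.U753.MX
open Pool.Agent.U753.MK (vnE)
open Pool.Agent.U753.MG (MarkovTotal)

namespace Pool.Agent.Results.MP_953b23_mp.RobustMarginals

/-- The conclusion of the open problem with the exponent `k` in the bond dimension
`exp (C (log L) ^ k)`. -/
def ConclusionAt (k : ℕ) {d : ℕ} (Ψ : ∀ L : ℕ, (Site L → Fin d) → ℂ) : Prop :=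
  ∀ c : ℝ, 0 < c → ∃ C : ℝ, Approx Ψ k C fun L => (L : ℝ) ^ (-c)

theorem result :
    -- (1) duality
    (∀ (d L : ℕ) [NeZero L] (r : ℕ), 0 < d → r ≤ L → ∀ Ψ : (Site L → Fin d) → ℂ, normSq Ψ = 1 →
      ∀ J η : ℝ, 0 < J → ((∃ h : Site L → BoxOp d r, Adm J h ∧ relG Ψ h ≤ η) ↔
        ∀ ρ : TorOp d L, ρ.PosSemidef → ρ.trace = 1 → vnE ρ ≤ η + J * ∑ u, locDist r ρ Ψ u)) ∧
    -- (2) one torus, one vector
    (∀ d : ℕ, 2 ≤ d → ∃ C : ℝ, 0 < C ∧ ∀ (L : ℕ) [NeZero L] (r : ℕ), 2 ≤ L → 1 ≤ r → r ≤ L →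
      ∀ Ψ : (Site L → Fin d) → ℂ, normSq Ψ = 1 → ∀ J η ε : ℝ, 0 < J → 0 < ε → ε ≤ 1 →
      (∀ ρ : TorOp d L, ρ.PosSemidef → ρ.trace = 1 → vnE ρ ≤ η + J * ∑ u, locDist r ρ Ψ u) →
      0 ≤ η ∧ ∃ (D : ℕ) (φ : (Site L → Fin d) → ℂ),
        (D : ℝ) ≤ Real.exp (C * (r : ℝ) ^ 24 * (J + η + Real.log L + Real.log (1 / ε))) ∧
        IsPEPS D φ ∧ normSq φ = 1 ∧ (1 - ε) * Real.exp (-η) ≤ ‖ip Ψ φ‖ ^ 2) ∧
    -- (3) gapped families
    (∀ (d R : ℕ) (h : BoxOp d R) (Δ : ℝ) (Ψ : ∀ L : ℕ, (Site L → Fin d) → ℂ), 2 ≤ d →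
      GappedFamily h Δ Ψ → ∀ (j i : ℕ) (B : ℝ), 1 ≤ i → Robust Ψ j i B →
      ConclusionAt (24 * j + i) Ψ) ∧
    -- (4) sufficient conditions
    (∀ (d R : ℕ) (h : BoxOp d R) (Δ : ℝ) (Ψ : ∀ L : ℕ, (Site L → Fin d) → ℂ), 2 ≤ d →
      GappedFamily h Δ Ψ →
      (∀ (j i : ℕ) (B : ℝ), 1 ≤ i → MarkovTotal Ψ j i B → ∃ B', Robust Ψ j (max (2 * j) i) B') ∧
      ∀ (k : ℕ) (C : ℝ), SmallPartition h Ψ k C → ∃ B', Robust Ψ 0 k B') ∧
    -- (5) all gapped families, with a worse constant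
    ∀ (d R : ℕ) (h : BoxOp d R) (Δ : ℝ) (Ψ : ∀ L : ℕ, (Site L → Fin d) → ℂ), 2 ≤ d →
      GappedFamily h Δ Ψ → ∃ (C : ℝ) (L₀ : ℕ), ∀ (L : ℕ) [NeZero L], L₀ ≤ L →
      ∀ ρ : TorOp d L, ρ.PosSemidef → ρ.trace = 1 →
        vnE ρ ≤ 1 + C * (L : ℝ) ^ 2 * ∑ u, locDist R ρ (Ψ L) u := by
  have hGV := Pool.Agent.U580.MX.t_gv
  have hGE := Pool.Agent.U333.MX.t_ge
  have hVA := Pool.Agent.U962.MX.t_va
  have hMI := Pool.Agent.U894.MX.t_mi
  have hBD := Pool.Agent.U397.MX.t_bd
  have hPF := Pool.Agent.U44.MX.t_pf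
  have hGG := Pool.Agent.U461.MX.t_gg
  refine ⟨?_, ?_, ?_, ?_, ?_⟩
  · intro d L _ r hd hr Ψ hΨ J η hJ
    exact dual hGV hGE hVA hMI hBD hd hr Ψ hΨ J η hJ
  · intro d hd
    obtain ⟨C, hC, hp⟩ := pepsG d hd
    refine ⟨C, hC, ?_⟩
    intro L _ r hL hr hrL Ψ hΨ J η ε hJ hε hε1 hρ
    exact hp L r hL hr hrL Ψ hΨ J η ε hJ hε hε1
      ((dual hGV hGE hVA hMI hBD (by omega) hrL Ψ hΨ J η hJ).2 hρ)
  · intro d R h Δ Ψ hd hF j i B hi hM
    obtain ⟨L₀, hL₀⟩ := hF.ground
    have h1 := robust_pure hGV hGE hVA hMI hBD hd Ψ ⟨L₀, fun L _ hL => (hL₀ L hL).1⟩ j i hi B hM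
    have hE := Pool.Agent.Y159.PepsScale.equivK hF (24 * j + i) (hi.trans (Nat.le_add_left _ _))
    have h2 : (∃ C : ℝ, PureOverlap Ψ (24 * j + i) C) →
        ∀ c : ℝ, 0 < c → ∃ C : ℝ, Approx Ψ (24 * j + i) C fun L => (L : ℝ) ^ (-c) :=
      (hE.out 3 0).1
    exact h2 h1
  · intro d R h Δ Ψ hd hF
    obtain ⟨L₀, hL₀⟩ := hF.ground
    exact ⟨fun j i B hi hM =>
      markov_robust hGV hGE hVA hMI hBD hd Ψ ⟨L₀, fun L _ hL => (hL₀ L hL).1⟩ j i hi B hM,
      fun k C hS => thermal_robust hPF hGV hGE hVA hMI hBD hd h Δ Ψ hF k C hS⟩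
  · intro d R h Δ Ψ hd hF
    exact gapped_weak hPF hGG hGV hGE hVA hMI hBD hd h Δ Ψ hF

end Pool.Agent.Results.MP_953b23_mp.RobustMarginals
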